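import Pool.Agent.P8H41.PK.Stm

/-!
# Project PK, part MATCH
-/

set_option autoImplicit false
set_option linter.all false

namespace Pool.Agent.P8H59.PK

open Finset
open Pool.Agent.P8H41.PK

theorem low {n : ℕ} (S : Finset (Fin n)) (h : ∀ j ∈ S, ∀ i ≤ j, i ∈ S) (j : Fin n) :
    j ∈ S ↔ j.val < S.card := by
  constructor
  · intro hj
    have h1 : Finset.Iic j ⊆ S := fun i hi => h j hj i (Finset.mem_Iic.mp hi)
    have h2 := Finset.card_le_card h1
    rw [Fin.card_Iic] at h2
    omega
  · intro hj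
    by_contra hn
    have h1 : S ⊆ Finset.Iio j := fun i hi =>
      Finset.mem_Iio.mpr (lt_of_not_ge fun hle => hn (h i hi j hle))
    have h2 := Finset.card_le_card h1
    rw [Fin.card_Iio] at h2
    omega

theorem sort_iff {n : ℕ} (x : Fin n → ℝ) (t : ℝ) (j : Fin n) :
    x (Tuple.sort x j) ≤ t ↔ j.val < (univ.filter (fun i => x i ≤ t)).card := by
  have h := low (univ.filter (fun j => x (Tuple.sort x j) ≤ t)) (by
    intro j hj i hij
    rw [mem_filter] at hj ⊢
    exact ⟨mem_univ _, (Tuple.monotone_sort x hij).trans hj.2⟩) j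
  have hc : (univ.filter (fun j => x (Tuple.sort x j) ≤ t)).card =
      (univ.filter (fun i => x i ≤ t)).card := by
    refine Finset.card_bij (fun j _ => Tuple.sort x j) ?_ ?_ ?_
    · intro a ha
      rw [mem_filter] at ha ⊢
      exact ⟨mem_univ _, ha.2⟩
    · intro a _ b _ hab
      exact (Tuple.sort x).injective hab
    · intro b hb
      rw [mem_filter] at hb
      refine ⟨(Tuple.sort x).symm b, ?_, ?_⟩
      · rw [mem_filter]
        refine ⟨mem_univ _, ?_⟩
        rw [Equiv.apply_symm_apply]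
        exact hb.2
      · exact Equiv.apply_symm_apply _ _
  rw [hc, mem_filter] at h
  constructor
  · intro h1
    exact h.mp ⟨mem_univ _, h1⟩
  · intro h1
    exact (h.mpr h1).2

/-- **MATCH** -/
theorem mtch : S_MATCH := by
  classical
  intro n x g T D hT
  obtain ⟨σ, hσ⟩ : ∃ σ : Equiv.Perm (Fin n), σ = (Tuple.sort x).symm.trans (Tuple.sort g) := ⟨_, rfl⟩
  refine ⟨σ, T.biUnion (fun t => univ.filter (fun i => ¬ (x i ≤ t ↔ g (σ i) ≤ t))), ?_, ?_⟩
  · have h1 : ∀ t ∈ T, ((univ.filter (fun i => ¬ (x i ≤ t ↔ g (σ i) ≤ t))).card : ℝ) ≤ D := by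
      intro t ht
      refine le_trans ?_ (hT t ht)
      unfold cnt
      obtain ⟨p, hp⟩ : ∃ p, p = (univ.filter (fun i => x i ≤ t)).card := ⟨_, rfl⟩
      obtain ⟨q, hq⟩ : ∃ q, q = (univ.filter (fun i => g i ≤ t)).card := ⟨_, rfl⟩
      rw [← hp, ← hq]
      have h2 : (univ.filter (fun i => ¬ (x i ≤ t ↔ g (σ i) ≤ t))).card ≤
          (Finset.Ico (min p q) (max p q)).card := by
        refine Finset.card_le_card_of_injOn (fun i => ((Tuple.sort x).symm i).val) ?_ ?_
        · intro i hi
          rw [Finset.mem_coe, mem_filter] at hi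
          have e1 := sort_iff x t ((Tuple.sort x).symm i)
          have e2 := sort_iff g t ((Tuple.sort x).symm i)
          rw [Equiv.apply_symm_apply, ← hp] at e1
          rw [← hq] at e2
          have e3 : g (σ i) = g (Tuple.sort g ((Tuple.sort x).symm i)) := by rw [hσ]; rfl
          rw [← e3] at e2
          have e4 := hi.2
          rw [e1, e2] at e4
          rw [Finset.mem_coe, Finset.mem_Ico]
          change min p q ≤ ((Tuple.sort x).symm i).val ∧ ((Tuple.sort x).symm i).val < max p q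
          omega
        · intro i _ j _ hij
          exact (Tuple.sort x).symm.injective (Fin.ext hij)
      rw [Nat.card_Ico] at h2
      have h3 : ((univ.filter (fun i => ¬ (x i ≤ t ↔ g (σ i) ≤ t))).card : ℝ) ≤
          ((max p q - min p q : ℕ) : ℝ) := by exact_mod_cast h2
      refine h3.trans (le_of_eq ?_)
      rw [Nat.cast_sub (min_le_max), Nat.cast_max, Nat.cast_min, max_sub_min_eq_abs', ]
    calc ((T.biUnion (fun t => univ.filter (fun i => ¬ (x i ≤ t ↔ g (σ i) ≤ t)))).card : ℝ) ≤
        ((∑ t ∈ T, (univ.filter (fun i => ¬ (x i ≤ t ↔ g (σ i) ≤ t))).card : ℕ) : ℝ) := by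
          exact_mod_cast Finset.card_biUnion_le
      _ = ∑ t ∈ T, ((univ.filter (fun i => ¬ (x i ≤ t ↔ g (σ i) ≤ t))).card : ℝ) := by
          push_cast; rfl
      _ ≤ ∑ _t ∈ T, D := Finset.sum_le_sum h1
      _ = T.card * D := by rw [Finset.sum_const, nsmul_eq_mul]
  · intro i hi t ht
    by_contra hcon
    apply hi
    rw [Finset.mem_biUnion]
    exact ⟨t, ht, by rw [mem_filter]; exact ⟨mem_univ _, hcon⟩⟩

end Pool.Agent.P8H59.PK
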